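import Pool.Agent.Helper600R2.Cnt.Final

/-!
Exponential lower bounds for constant-depth Frege systems with `MOD p` gates in which every
part between `MOD p` gates sees few `MOD p` gates.
-/

set_option linter.unusedSectionVars false

namespace Pool.Agent.Results.MP_7a4ff1_lc.ModWidth

open Finset Pool.Agent.Helper600R2.Cnt

lemma depth_sub {p : ℕ} {α : Type} (φ : Fm p α) : ∀ χ ∈ φ.sub, χ.depth ≤ φ.depth := by
  classical
  induction φ with
  | var a =>
    intro χ hχ
    simp only [Fm.sub, mem_singleton] at hχ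
    rw [hχ]
  | neg φ ih =>
    intro χ hχ
    simp only [Fm.sub, mem_insert] at hχ
    rcases hχ with rfl | hχ
    · exact le_rfl
    · have := ih χ hχ
      simp only [Fm.depth]
      omega
  | or t φs ih =>
    intro χ hχ
    simp only [Fm.sub, mem_insert, mem_biUnion, mem_univ, true_and] at hχ
    rcases hχ with rfl | ⟨j, hj⟩
    · exact le_rfl
    · have h1 := ih j χ hj
      have h2 := Finset.le_sup (f := fun j => (φs j).depth) (mem_univ j)
      simp only [Fm.depth]
      omega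
  | md i t φs ih =>
    intro χ hχ
    simp only [Fm.sub, mem_insert, mem_biUnion, mem_univ, true_and] at hχ
    rcases hχ with rfl | ⟨j, hj⟩
    · exact le_rfl
    · have h1 := ih j χ hj
      have h2 := Finset.le_sup (f := fun j => (φs j).depth) (mem_univ j)
      simp only [Fm.depth]
      omega

lemma depth_allSub {p T : ℕ} {α : Type} (L : Fin T → Fm p α) {d : ℕ}
    (h : ∀ i, (L i).depth ≤ d) : ∀ φ ∈ allSub L, φ.depth ≤ d := by
  classical
  intro φ hφ
  simp only [allSub, mem_biUnion, mem_univ, true_and] at hφ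
  obtain ⟨i, hi⟩ := hφ
  exact (depth_sub (L i) φ hi).trans (h i)

/-- Let `p` be a prime and `q ≥ 2` not divisible by `p`. For all `d` and `c` there is `ε > 0` such
that for all large `N`: every refutation of the counting principle modulo `q` on `N` elements by
`c`-local inferences, in which all lines are formulas (with `MOD p` connectives) of depth at most
`d` and no subformula has more than `N ^ ε` maximal `MOD p` subformulas, has at least
`2 ^ (N ^ ε)` distinct subformulas. -/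
theorem result (p q : ℕ) (hp : p.Prime) (hq : 2 ≤ q) (hpq : ¬ p ∣ q) (d c : ℕ) :
    ∃ ε : ℝ, 0 < ε ∧ ∃ N₀ : ℕ, ∀ N : ℕ, N₀ ≤ N →
      ∀ (T : ℕ) (L : Fin T → Fm p (Var q N)), IsRefutation c L →
        (∀ i, (L i).depth ≤ d) → (∀ φ ∈ allSub L, (φ.tops.card : ℝ) ≤ (N : ℝ) ^ ε) →
        (2 : ℝ) ^ ((N : ℝ) ^ ε) ≤ ((allSub L).card : ℝ) := by
  obtain ⟨C, hC0, hC⟩ := count_core p q hp hq hpq d c
  set W : ℕ := (2 * (q * q + q) + 4) ^ d with hW
  have hW0 : 0 < W := by positivity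
  set e : ℕ := (d + 2) * W with he
  have he0 : 0 < e := Nat.mul_pos (by omega) hW0
  have her : (0 : ℝ) < e := by exact_mod_cast he0
  set ε : ℝ := 1 / (2 * e) with hε
  have hε0 : 0 < ε := by positivity
  set C4 : ℕ := (C * (2 * q) ^ (d + 2)) ^ W with hC4
  refine ⟨ε, hε0, C4 ^ 2 + 1, ?_⟩
  intro N hN T L href hdepth htops
  have hN1 : (1 : ℝ) ≤ N := by
    have : 1 ≤ N := by omega
    exact_mod_cast this
  have hNε : 1 ≤ (N : ℝ) ^ ε := Real.one_le_rpow hN1 hε0.le
  set Y : ℕ := ⌊(N : ℝ) ^ ε⌋₊ + 1 with hY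
  have hY1 : (Y : ℝ) ≤ 2 * (N : ℝ) ^ ε := by
    have := Nat.floor_le (by linarith : 0 ≤ (N : ℝ) ^ ε)
    rw [hY]; push_cast; linarith
  have hY2 : (N : ℝ) ^ ε < Y := by
    rw [hY]; push_cast; exact Nat.lt_floor_add_one _
  have hbig : (C * (q * Y) ^ (d + 2)) ^ W ≤ N := by
    have h1 : (((C * (q * Y) ^ (d + 2)) ^ W : ℕ) : ℝ) ≤ (N : ℝ) := by
      push_cast
      have h2 : ((C : ℝ) * (q * Y) ^ (d + 2)) ^ W ≤
          ((C : ℝ) * (q * (2 * (N : ℝ) ^ ε)) ^ (d + 2)) ^ W := by
        apply pow_le_pow_left₀ (by positivity)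
        apply mul_le_mul_of_nonneg_left _ (by positivity)
        apply pow_le_pow_left₀ (by positivity)
        exact mul_le_mul_of_nonneg_left hY1 (by positivity)
      refine h2.trans ?_
      have h3 : ((C : ℝ) * (q * (2 * (N : ℝ) ^ ε)) ^ (d + 2)) ^ W =
          (C4 : ℝ) * ((N : ℝ) ^ ε) ^ e := by
        rw [hC4, he, pow_mul ((N : ℝ) ^ ε)]
        push_cast
        rw [← mul_pow]
        congr 1
        ring
      have h4 : ((N : ℝ) ^ ε) ^ e = (N : ℝ) ^ (1 / 2 : ℝ) := by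
        rw [← Real.rpow_natCast, ← Real.rpow_mul (by linarith)]
        congr 1
        rw [hε]; field_simp
      have h5 : (C4 : ℝ) ≤ (N : ℝ) ^ (1 / 2 : ℝ) := by
        rw [← Real.sqrt_eq_rpow]
        apply Real.le_sqrt_of_sq_le
        have : C4 ^ 2 ≤ N := by omega
        exact_mod_cast this
      rw [h3, h4]
      calc (C4 : ℝ) * (N : ℝ) ^ (1 / 2 : ℝ) ≤ (N : ℝ) ^ (1 / 2 : ℝ) * (N : ℝ) ^ (1 / 2 : ℝ) :=
            mul_le_mul_of_nonneg_right h5 (by positivity)
        _ = N := by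
            rw [← Real.rpow_add (by linarith)]; norm_num
    exact_mod_cast h1
  have hmain := hC N Y (by omega) hbig T L href (depth_allSub L hdepth) (by
    intro φ hφ
    have := Nat.le_floor (htops φ hφ)
    omega)
  have h1 : (8 : ℝ) ^ Y ≤ ((allSub L).card : ℝ) := by
    have h2 : (16 : ℝ) ^ Y < ((allSub L).card : ℝ) * 2 ^ (Y - 1) := by exact_mod_cast hmain
    have h3 : (2 : ℝ) ^ (Y - 1) ≤ 2 ^ Y := pow_le_pow_right₀ (by norm_num) (Nat.sub_le _ _)
    have h4 : (16 : ℝ) ^ Y = 8 ^ Y * 2 ^ Y := by rw [← mul_pow]; norm_num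
    have h5 : (8 : ℝ) ^ Y * 2 ^ Y ≤ ((allSub L).card : ℝ) * 2 ^ Y := by
      rw [← h4]
      exact h2.le.trans (mul_le_mul_of_nonneg_left h3 (Nat.cast_nonneg _))
    exact le_of_mul_le_mul_right h5 (by positivity)
  refine le_trans ?_ h1
  calc (2 : ℝ) ^ ((N : ℝ) ^ ε) ≤ 2 ^ (Y : ℝ) :=
        Real.rpow_le_rpow_of_exponent_le (by norm_num) hY2.le
    _ = 2 ^ Y := Real.rpow_natCast _ _
    _ ≤ 8 ^ Y := pow_le_pow_left₀ (by norm_num) (by norm_num) _

end Pool.Agent.Results.MP_7a4ff1_lc.ModWidth
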