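import Mathlib
import Pool.Agent.Helper600R2.CM.CodesP2
import Pool.Agent.Helper600R2.CM.P1
import Pool.Agent.Helper600R2.CM.P2
import Pool.Agent.Helper600R2.CM.All

/-!
Polynomial-size CNFs on `N` variables for which refutations whose lines are formulas with `MOD_p`
gates of unbounded fan-in need exponentially many formulas, provided that the `MOD_p` gates are
nested to a bounded depth and every layer between them has size at most `N ^ (2 - ε)` and reads at
most `N ^ δ` distinct `MOD_p` gates.
-/

namespace Pool.Agent.Results.MP_7a4ff1_lc.QuadraticLayers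

open Finset

/-- Formulas over `N` variables with gates of unbounded fan-in which count modulo `p`: the gate
`md t k c f` with the `k` inputs `f i` is true iff the sum modulo `p` of the coefficients `c i` of
its true inputs satisfies `t`.  The gate `MOD_{p,i}` is the case of all coefficients `1` and
`t = {i}`. -/
inductive Fm (p N : ℕ) : Type
  | const : Bool → Fm p N
  | var : Fin N → Fm p N
  | neg : Fm p N → Fm p N
  | and : Fm p N → Fm p N → Fm p N
  | or : Fm p N → Fm p N → Fm p N
  | md : (ZMod p → Bool) → (k : ℕ) → (Fin k → ZMod p) → (Fin k → Fm p N) → Fm p N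

/-- Truth value of a formula. -/
def Fm.eval {p N : ℕ} (z : Fin N → Bool) : Fm p N → Bool
  | .const b => b
  | .var v => z v
  | .neg f => !(f.eval z)
  | .and f g => f.eval z && g.eval z
  | .or f g => f.eval z || g.eval z
  | .md t _ c f => t (∑ i, if (f i).eval z = true then c i else 0)

/-- Number of occurrences of variables outside the counting gates. -/
def Fm.size {p N : ℕ} : Fm p N → ℕ
  | .const _ => 0
  | .var _ => 1
  | .neg f => f.size
  | .and f g => f.size + g.size
  | .or f g => f.size + g.size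
  | .md _ _ _ _ => 0

/-- The counting gates which are not inside another counting gate. -/
def Fm.tops {p N : ℕ} : Fm p N → Set (Fm p N)
  | .const _ => ∅
  | .var _ => ∅
  | .neg f => f.tops
  | .and f g => f.tops ∪ g.tops
  | .or f g => f.tops ∪ g.tops
  | .md t k c f => {.md t k c f}

/-- The inputs of the counting gates which are not inside another counting gate. -/
def Fm.inputs {p N : ℕ} : Fm p N → Set (Fm p N)
  | .const _ => ∅
  | .var _ => ∅
  | .neg f => f.inputs
  | .and f g => f.inputs ∪ g.inputs
  | .or f g => f.inputs ∪ g.inputs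
  | .md _ _ _ f => Set.range f

/-- Nesting depth of the counting gates. -/
def Fm.nest {p N : ℕ} : Fm p N → ℕ
  | .const _ => 0
  | .var _ => 0
  | .neg f => f.nest
  | .and f g => max f.nest g.nest
  | .or f g => max f.nest g.nest
  | .md _ _ _ f => 1 + Finset.univ.sup fun i => (f i).nest

/-- A clause over `N` variables: a finite set of literals; the literal `(x, s)` says that the
variable `x` has the value `s`. -/
abbrev Clause (N : ℕ) := Finset (Fin N × Bool)

/-- The assignment `z` satisfies the clause. -/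
def Clause.Holds {N : ℕ} (z : Fin N → Bool) (c : Clause N) : Prop := ∃ l ∈ c, z l.1 = l.2

/-- A refutation of the CNF `F` whose lines are formulas: every line is implied by a clause of `F`
or by at most `a` earlier lines, and some line is unsatisfiable.  The finite set `all` contains
the lines and, with every formula, the inputs of its counting gates; every formula in `all` has,
outside of counting gates, at most `s` occurrences of variables and at most `g` distinct counting
gates, and the counting gates are nested to depth at most `k`. -/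
structure Refutation {N : ℕ} (F : Finset (Clause N)) (p k a g s S : ℕ) where
  line : Fin S → Fm p N
  all : Finset (Fm p N)
  line_mem : ∀ j, line j ∈ all
  inputs_mem : ∀ φ ∈ all, ∀ ψ ∈ φ.inputs, ψ ∈ all
  size_le : ∀ φ ∈ all, φ.size ≤ s
  tops_le : ∀ φ ∈ all, φ.tops.encard ≤ g
  nest_le : ∀ φ ∈ all, φ.nest ≤ k
  sound : ∀ j, (∃ c ∈ F, ∀ z, c.Holds z → (line j).eval z = true) ∨
    ∃ P : Finset (Fin S), P.card ≤ a ∧ (∀ i ∈ P, i < j) ∧
      ∀ z, (∀ i ∈ P, (line i).eval z = true) → (line j).eval z = true
  final : ∃ j, ∀ z, (line j).eval z = false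

open H542 (T evs leavess comb evs_comb leavess_comb)
open Pool.Agent.Helper600R2 Pool.Agent.Helper600R2.CM Pool.Agent.H564R2.QF
open Pool.Agent.Helper600R2.Quad (HoldsA)

/-- partial inverse of an injection -/
noncomputable def pinv {A : Type} {N : ℕ} (e : A ↪ Fin N) (v : Fin N) : Option A := by
  classical
  exact if h : ∃ w, e w = v then some h.choose else none

theorem pinv_apply {A : Type} {N : ℕ} (e : A ↪ Fin N) (w : A) : pinv e (e w) = some w := by
  classical
  unfold pinv
  have h : ∃ w', e w' = e w := ⟨w, rfl⟩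
  simp only [dif_pos h]
  exact congrArg some (e.injective h.choose_spec)

/-- extension of an assignment by `false` -/
noncomputable def up {A : Type} {N : ℕ} (e : A ↪ Fin N) (z : A → Bool) (v : Fin N) : Bool :=
  match pinv e v with
  | some w => z w
  | none => false

theorem up_apply {A : Type} {N : ℕ} (e : A ↪ Fin N) (z : A → Bool) (w : A) :
    up e z (e w) = z w := by
  unfold up
  rw [pinv_apply]

/-- evaluation when the outer counting gates have the values `U` -/
def ev {p N : ℕ} (z : Fin N → Bool) (U : Fm p N → Bool) : Fm p N → Bool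
  | .const b => b
  | .var v => z v
  | .neg f => !(ev z U f)
  | .and f g => ev z U f && ev z U g
  | .or f g => ev z U f || ev z U g
  | .md t k c f => U (.md t k c f)

theorem ev_eval {p N : ℕ} (z : Fin N → Bool) (U : Fm p N → Bool) (φ : Fm p N)
    (h : ∀ μ ∈ φ.tops, U μ = μ.eval z) : ev z U φ = φ.eval z := by
  induction φ with
  | const b => rfl
  | var v => rfl
  | neg f ih =>
    simp only [ev, Fm.eval]
    rw [ih h]
  | and f g ihf ihg =>
    simp only [ev, Fm.eval]
    rw [ihf fun μ hμ => h μ (Or.inl hμ), ihg fun μ hμ => h μ (Or.inr hμ)]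
  | or f g ihf ihg =>
    simp only [ev, Fm.eval]
    rw [ihf fun μ hμ => h μ (Or.inl hμ), ihg fun μ hμ => h μ (Or.inr hμ)]
  | md t k c f ih => exact h _ rfl

theorem tops_mem {p N : ℕ} (φ : Fm p N) : ∀ μ ∈ φ.tops, ∃ t k c f, μ = .md t k c f ∧
    (∀ i, f i ∈ φ.inputs) ∧ (∀ i, (f i).nest + 1 ≤ φ.nest) ∧ 1 ≤ φ.nest := by
  induction φ with
  | const b => intro μ hμ; exact absurd hμ (Set.notMem_empty _)
  | var v => intro μ hμ; exact absurd hμ (Set.notMem_empty _)
  | neg f ih => exact ih
  | and f g ihf ihg =>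
    intro μ hμ
    rcases hμ with hμ | hμ
    · obtain ⟨t, k, c, h, h1, h2, h3, h4⟩ := ihf μ hμ
      exact ⟨t, k, c, h, h1, fun i => Or.inl (h2 i), fun i => (h3 i).trans (le_max_left _ _),
        h4.trans (le_max_left _ _)⟩
    · obtain ⟨t, k, c, h, h1, h2, h3, h4⟩ := ihg μ hμ
      exact ⟨t, k, c, h, h1, fun i => Or.inr (h2 i), fun i => (h3 i).trans (le_max_right _ _),
        h4.trans (le_max_right _ _)⟩
  | or f g ihf ihg =>
    intro μ hμ
    rcases hμ with hμ | hμ
    · obtain ⟨t, k, c, h, h1, h2, h3, h4⟩ := ihf μ hμ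
      exact ⟨t, k, c, h, h1, fun i => Or.inl (h2 i), fun i => (h3 i).trans (le_max_left _ _),
        h4.trans (le_max_left _ _)⟩
    · obtain ⟨t, k, c, h, h1, h2, h3, h4⟩ := ihg μ hμ
      exact ⟨t, k, c, h, h1, fun i => Or.inr (h2 i), fun i => (h3 i).trans (le_max_right _ _),
        h4.trans (le_max_right _ _)⟩
  | md t k c f ih =>
    intro μ hμ
    refine ⟨t, k, c, f, hμ, fun i => Set.mem_range_self i, fun i => ?_, ?_⟩
    · have : (f i).nest ≤ Finset.univ.sup fun i => (f i).nest :=
        Finset.le_sup (f := fun i => (f i).nest) (mem_univ i)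
      simp only [Fm.nest]
      omega
    · simp only [Fm.nest]
      omega

/-- the list of the outer counting gates -/
theorem exists_list {p N : ℕ} (φ : Fm p N) (g : ℕ) (h : φ.tops.encard ≤ g) :
    ∃ l : List (Fm p N), l.length ≤ g ∧ ∀ μ, μ ∈ l ↔ μ ∈ φ.tops := by
  classical
  have hf : φ.tops.Finite := Set.finite_of_encard_le_coe h
  refine ⟨hf.toFinset.toList, ?_, fun μ => by simp⟩
  rw [Finset.length_toList]
  rw [hf.encard_eq_coe_toFinset_card] at h
  exact_mod_cast h

/-- negation normal form over `A`, the variables outside `A` being set to `false` and the outer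
counting gates to the values `U` -/
noncomputable def conv {A : Type} {p N : ℕ} (e : A ↪ Fin N) (U : Fm p N → Bool) :
    Bool → Fm p N → T A ⊕ Bool
  | s, .const b => .inr (b == s)
  | s, .var v => match pinv e v with
    | some w => .inl (.lit w s)
    | none => .inr (false == s)
  | s, .neg f => conv e U (!s) f
  | s, .and f g => comb s (conv e U s f) (conv e U s g)
  | s, .or f g => comb (!s) (conv e U s f) (conv e U s g)
  | s, .md t k c f => .inr (U (.md t k c f) == s)

theorem evs_conv {A : Type} {p N : ℕ} (e : A ↪ Fin N) (U : Fm p N → Bool) (z : A → Bool)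
    (f : Fm p N) : ∀ s : Bool, evs z (conv e U s f) = (ev (up e z) U f == s) := by
  induction f with
  | const b => intro s; rfl
  | var v =>
    intro s
    simp only [conv, ev, up]
    cases pinv e v with
    | some w => rfl
    | none => rfl
  | neg f ih =>
    intro s
    simp only [conv, ev, ih]
    cases ev (up e z) U f <;> cases s <;> rfl
  | and f g ihf ihg =>
    intro s
    simp only [conv, ev, evs_comb, ihf, ihg]
    cases ev (up e z) U f <;> cases ev (up e z) U g <;> cases s <;> rfl
  | or f g ihf ihg =>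
    intro s
    simp only [conv, ev, evs_comb, ihf, ihg]
    cases ev (up e z) U f <;> cases ev (up e z) U g <;> cases s <;> rfl
  | md t k c f ih => intro s; rfl

theorem leavess_conv {A : Type} {p N : ℕ} (e : A ↪ Fin N) (U : Fm p N → Bool) (f : Fm p N) :
    ∀ s : Bool, leavess (conv e U s f) ≤ f.size := by
  induction f with
  | const b => intro s; simp [conv, leavess]
  | var v =>
    intro s
    simp only [conv, Fm.size]
    cases pinv e v with
    | some w => exact le_rfl
    | none => exact Nat.zero_le _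
  | neg f ih => intro s; exact ih (!s)
  | and f g ihf ihg =>
    intro s
    exact (leavess_comb _ _ _).trans (add_le_add (ihf s) (ihg s))
  | or f g ihf ihg =>
    intro s
    exact (leavess_comb _ _ _).trans (add_le_add (ihf s) (ihg s))
  | md t k c f ih => intro s; exact Nat.zero_le _

/-- renaming of the variables of a clause -/
def ren {A : Type} {N : ℕ} (e : A ↪ Fin N) (c : Finset (A × Bool)) : Clause N :=
  c.image fun l => (e l.1, l.2)

theorem holds_ren {A : Type} {N : ℕ} (e : A ↪ Fin N) (c : Finset (A × Bool))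
    (z : Fin N → Bool) : (ren e c).Holds z ↔ HoldsA (fun w => z (e w)) c := by
  unfold ren Clause.Holds HoldsA
  constructor
  · rintro ⟨l, hl, hz⟩
    rw [mem_image] at hl
    obtain ⟨l', hl', rfl⟩ := hl
    exact ⟨l', hl', hz⟩
  · rintro ⟨l, hl, hz⟩
    exact ⟨_, mem_image_of_mem _ hl, hz⟩

/-- adaptive composition -/
theorem adp {V K : Type} [Fintype V] [DecidableEq V] [Field K] {D1 : ℕ}
    (l : List ((V → Bool) → Bool)) (hl : ∀ f ∈ l, toK K f ∈ J (ι := V) (α := Bool) K D1) :
    ∀ (D0 : ℕ) (Φ : List Bool → (V → Bool) → Bool),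
      (∀ w, toK K (Φ w) ∈ J (ι := V) (α := Bool) K D0) →
      toK K (fun y => Φ (l.map (fun f => f y)) y) ∈
        J (ι := V) (α := Bool) K (D0 + l.length * D1) := by
  induction l with
  | nil =>
    intro D0 Φ hΦ
    simpa using hΦ []
  | cons f fs ih =>
    intro D0 Φ hΦ
    have h1 := ih (fun g hg => hl g (List.mem_cons_of_mem _ hg)) (D0 + D1)
      (fun w y => Φ (f y :: w) y) (by
        intro w
        have h2 : toK K (fun y => Φ (f y :: w) y) =
            toK K f * toK K (Φ (true :: w)) + (1 - toK K f) * toK K (Φ (false :: w)) := by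
          funext y
          simp only [Pi.add_apply, Pi.mul_apply, Pi.sub_apply, Pi.one_apply, toK]
          by_cases hy : f y = true
          · simp [hy]
          · rw [Bool.not_eq_true] at hy
            simp [hy]
        rw [h2]
        have h3 : toK K f ∈ J (ι := V) (α := Bool) K D1 := hl f (List.mem_cons_self)
        rw [add_comm D0 D1]
        exact Submodule.add_mem _ (J_mul h3 (hΦ _))
          (J_mul (Submodule.sub_mem _ (J_one _) h3) (hΦ _)))
    have h4 : D0 + D1 + fs.length * D1 = D0 + (f :: fs).length * D1 := by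
      rw [List.length_cons]
      ring
    rw [h4] at h1
    simpa using h1

/-- degree of a counting gate -/
theorem deg_md {V K : Type} [Fintype V] [DecidableEq V] {p : ℕ} [Fact p.Prime] [Field K]
    [Algebra (ZMod p) K] (X : ℕ) (t : ZMod p → Bool) (k : ℕ) (c : Fin k → ZMod p)
    (f : Fin k → (V → Bool) → Bool) (hf : ∀ i, toK K (f i) ∈ J (ι := V) (α := Bool) K X) :
    toK K (fun y => t (∑ i, if f i y = true then c i else 0)) ∈
      J (ι := V) (α := Bool) K ((p - 1) * X) := by
  have h := P2.proof_P2 V p K 0 1 X (fun l => l.elim0)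
    (fun _ y => ∑ i, if f i y = true then c i else 0) (fun l => l.elim0) (fun _ => by
      have h3 : (fun y => algebraMap (ZMod p) K (∑ i, if f i y = true then c i else 0)) =
          ∑ i, algebraMap (ZMod p) K (c i) • toK K (f i) := by
        funext y
        rw [map_sum, Finset.sum_apply]
        refine Finset.sum_congr rfl (fun i _ => ?_)
        by_cases hi : f i y = true
        · simp [toK, hi]
        · simp [toK, hi]
      rw [h3]
      exact Submodule.sum_mem _ (fun i _ => Submodule.smul_mem _ _ (hf i)))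
    (fun _ u => t (u 0))
  simpa using h

/-- the values of `U`, padded -/
def pad {g : ℕ} (U : Fin g → Bool) (i : ℕ) : Bool := if h : i < g then U ⟨i, h⟩ else false

open Classical in
/-- the values of the gates in the list `l` -/
noncomputable def tab {p N g : ℕ} (l : List (Fm p N)) (U : Fin g → Bool) (μ : Fm p N) : Bool :=
  pad U (l.idxOf μ)

theorem tab_map {p N g : ℕ} (l : List (Fm p N)) (hl : l.length ≤ g) (z : Fin N → Bool)
    (μ : Fm p N) (hμ : μ ∈ l) :
    tab l (fun i : Fin g => (l.map (fun μ => μ.eval z)).getD i false) μ = μ.eval z := by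
  classical
  have h1 : l.idxOf μ < l.length := List.idxOf_lt_length_iff.mpr hμ
  unfold tab pad
  rw [dif_pos (h1.trans_le hl)]
  show (l.map (fun μ => μ.eval z)).getD (l.idxOf μ) false = μ.eval z
  rw [List.getD_eq_getElem _ _ (by rw [List.length_map]; exact h1), List.getElem_map,
    List.getElem_idxOf]

/-- the degree of all formulas -/
theorem deg_all {V K A : Type} [Fintype V] [DecidableEq V] {p N : ℕ} [Fact p.Prime] [Field K]
    [Algebra (ZMod p) K] (e : A ↪ Fin N) (g d : ℕ) (all : Finset (Fm p N))
    (hin : ∀ φ ∈ all, ∀ ψ ∈ φ.inputs, ψ ∈ all) (tl : Fm p N → List (Fm p N))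
    (htop : ∀ φ ∈ all, (tl φ).length ≤ g ∧ ∀ μ, μ ∈ tl φ ↔ μ ∈ φ.tops)
    (Z : (V → Bool) → (A → Bool))
    (hb : ∀ φ ∈ all, ∀ U : Fin g → Bool,
      toK K (fun y => evs (Z y) (conv e (tab (tl φ) U) true φ)) ∈ J (ι := V) (α := Bool) K d)
    (n : ℕ) : ∀ φ ∈ all, φ.nest ≤ n →
      toK K (fun y => φ.eval (up e (Z y))) ∈
        J (ι := V) (α := Bool) K ((1 + g * (p - 1)) ^ n * d) := by
  -- the value of the formula in terms of the values of its gates
  have key : ∀ φ ∈ all, ∀ y, evs (Z y) (conv e (tab (tl φ) (fun i : Fin g =>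
      (((tl φ).map (fun μ y => μ.eval (up e (Z y)))).map (fun f => f y)).getD i false)) true φ) =
        φ.eval (up e (Z y)) := by
    intro φ hφ y
    rw [evs_conv, ev_eval]
    · simp
    · intro μ hμ
      rw [List.map_map]
      exact tab_map (tl φ) (htop φ hφ).1 (up e (Z y)) μ (((htop φ hφ).2 μ).mpr hμ)
  induction n with
  | zero =>
    intro φ hφ hn
    have h0 : tl φ = [] := by
      rw [List.eq_nil_iff_forall_not_mem]
      intro μ hμ
      obtain ⟨_, _, _, _, _, _, _, h⟩ := tops_mem φ μ (((htop φ hφ).2 μ).mp hμ)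
      omega
    have h1 := hb φ hφ (fun _ => false)
    have h2 : (fun y => φ.eval (up e (Z y))) =
        (fun y => evs (Z y) (conv e (tab (tl φ) (fun _ : Fin g => false)) true φ)) := by
      funext y
      rw [← key φ hφ y, h0]
      rfl
    rw [h2]
    simpa using h1
  | succ n ih =>
    intro φ hφ hn
    have h1 := adp (V := V) (K := K) (D1 := (p - 1) * ((1 + g * (p - 1)) ^ n * d))
      ((tl φ).map (fun μ y => μ.eval (up e (Z y)))) (by
        intro f hf
        rw [List.mem_map] at hf
        obtain ⟨μ, hμ, rfl⟩ := hf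
        obtain ⟨t, k, c, f, rfl, h2, h3, _⟩ := tops_mem φ μ (((htop φ hφ).2 μ).mp hμ)
        exact deg_md (V := V) (K := K) _ t k c (fun i y => (f i).eval (up e (Z y)))
          (fun i => ih (f i) (hin φ hφ _ (h2 i)) (by have := h3 i; omega)))
      d (fun w y => evs (Z y) (conv e (tab (tl φ) (fun i : Fin g => w.getD i false)) true φ))
      (fun w => hb φ hφ _)
    have h2 : (fun y => evs (Z y) (conv e (tab (tl φ) (fun i : Fin g =>
        (((tl φ).map (fun μ y => μ.eval (up e (Z y)))).map (fun f => f y)).getD i false))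
          true φ)) = (fun y => φ.eval (up e (Z y))) := by
      funext y
      exact key φ hφ y
    rw [h2] at h1
    refine J_mono ?_ h1
    rw [List.length_map]
    have h5 := (htop φ hφ).1
    have h6 : 1 ≤ (1 + g * (p - 1)) ^ n := Nat.one_le_pow _ _ (by omega)
    calc d + (tl φ).length * ((p - 1) * ((1 + g * (p - 1)) ^ n * d))
        ≤ (1 + g * (p - 1)) ^ n * d + g * ((p - 1) * ((1 + g * (p - 1)) ^ n * d)) :=
          add_le_add (Nat.le_mul_of_pos_left _ h6) (Nat.mul_le_mul_right _ h5)
      _ = (1 + g * (p - 1)) ^ (n + 1) * d := by ring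

/-- For every prime `p` and every `ε > 0` there is `δ > 0` such that for all large `N` there is an
unsatisfiable CNF with `N` variables and at most `N ^ 25` clauses of width `O(log N)` with the
following property.  Every refutation by semantic inferences with at most `N ^ δ` premises, whose
lines are formulas with `¬`, `∧`, `∨` and counting gates modulo `p` of unbounded fan-in which are
nested to depth at most `k`, such that the lines and all inputs of counting gates have outside of
counting gates at most `N ^ (2 - ε)` occurrences of variables and at most `g` distinct counting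
gates, where `g ≤ N ^ δ` and `(p (g + 1)) ^ k ≤ N ^ δ`, contains at least `exp (N ^ δ)` distinct
formulas.  (For constant `k` the latter condition holds if `g ≤ N ^ (δ / (k + 1))` and `N` is
large.) -/
theorem result (p : ℕ) (hp : p.Prime) (ε : ℝ) (hε : 0 < ε) :
    ∃ (δ : ℝ) (N0 : ℕ), 0 < δ ∧ ∀ N ≥ N0, ∃ F : Finset (Clause N), F.card ≤ N ^ 25 ∧
      (∀ cl ∈ F, cl.card ≤ 8 * (2 * Nat.log 2 N + 3)) ∧
      (∀ z : Fin N → Bool, ∃ cl ∈ F, ¬ cl.Holds z) ∧
      ∀ k a g s S : ℕ, (a : ℝ) ≤ (N : ℝ) ^ δ → (g : ℝ) ≤ (N : ℝ) ^ δ →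
        (((p * (g + 1)) ^ k : ℕ) : ℝ) ≤ (N : ℝ) ^ δ → (s : ℝ) ≤ (N : ℝ) ^ (2 - ε) →
        ∀ ref : Refutation F p k a g s S, Real.exp ((N : ℝ) ^ δ) ≤ ref.all.card := by
  classical
  have : Fact p.Prime := ⟨hp⟩
  -- the modulus of the CNF
  obtain ⟨q, hq, hpq, hq3⟩ : ∃ q : ℕ, q.Prime ∧ p ≠ q ∧ q ≤ 3 := by
    by_cases h : p = 2
    · exact ⟨3, Nat.prime_three, by omega, le_rfl⟩
    · exact ⟨2, Nat.prime_two, h, by omega⟩
  have : Fact q.Prime := ⟨hq⟩
  -- exponents
  obtain ⟨x, hx⟩ : ∃ x, x = min ε (1 / 2) / 64 := ⟨_, rfl⟩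
  have hmin : 0 < min ε (1 / 2) := lt_min hε (by norm_num)
  have hx0 : 0 < x := by rw [hx]; positivity
  have hx1 : 64 * x ≤ 1 / 2 := by
    rw [hx]
    have := min_le_right ε (1 / 2)
    linarith
  have hxε : 64 * x ≤ ε := by
    rw [hx]
    have := min_le_left ε (1 / 2)
    linarith
  obtain ⟨δ, hδ⟩ : ∃ δ, δ = x / 2 := ⟨_, rfl⟩
  have hδ0 : 0 < δ := by rw [hδ]; positivity
  have hδ1 : 2 * δ = x := by rw [hδ]; ring
  obtain ⟨N0, hnum⟩ := num 2 1 x (by omega) hx0 hx1
  refine ⟨δ, max (max N0 1) ⌈(2 : ℝ) ^ (1 / δ)⌉₊, hδ0, fun N hN => ?_⟩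
  have hN1 : 1 ≤ N := ((le_max_right _ _).trans (le_max_left _ _)).trans hN
  have hN1' : (1 : ℝ) ≤ N := by exact_mod_cast hN1
  have hX2 : (2 : ℝ) ≤ (N : ℝ) ^ δ := by
    have h1 : (2 : ℝ) ^ (1 / δ) ≤ N := Nat.le_of_ceil_le ((le_max_right _ _).trans hN)
    calc (2 : ℝ) = ((2 : ℝ) ^ (1 / δ)) ^ δ := by
          rw [← Real.rpow_mul (by norm_num), one_div, inv_mul_cancel₀ hδ0.ne', Real.rpow_one]
      _ ≤ (N : ℝ) ^ δ := Real.rpow_le_rpow (by positivity) h1 hδ0.le
  have hX22 : ((N : ℝ) ^ δ) ^ 2 = (N : ℝ) ^ x := by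
    rw [← Real.rpow_natCast, ← Real.rpow_mul (by positivity), ← hδ1]
    congr 1
    push_cast
    ring
  have h2X : 2 * (N : ℝ) ^ δ ≤ (N : ℝ) ^ x := by
    rw [← hX22]
    nlinarith
  obtain ⟨n, kk, κ, s0, d, mm, t, hn, hk, hsum, hκ, hs0, ht, htk, hsT, hcount, hfan, hSr,
    hcard⟩ := hnum N (((le_max_left _ _).trans (le_max_left _ _)).trans hN)
  let A := Vr n 2 kk κ
  have hA : Fintype.card A ≤ N := by
    simp only [A, Fintype.card_sum, Fintype.card_prod, Fintype.card_fin, Fintype.card_bool]
    refine le_trans (le_of_eq ?_) hsum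
    ring
  obtain ⟨e⟩ : Nonempty (A ↪ Fin N) :=
    Function.Embedding.nonempty_of_card_le (by rw [Fintype.card_fin]; exact hA)
  obtain ⟨π, h, hD1, hD2, hD3, hD4⟩ := core3P2 P1.proof_P1 p q 2 hpq (by omega) (n := n) (k := kk)
    (κ := κ) hn hk d ht htk hsT mm (Real.exp (-(N : ℝ) ^ (2 * x))) (Real.exp_pos _)
    (by
      refine lt_of_le_of_lt ?_ hcount
      rw [Fintype.card_fun, Fintype.card_fin, Fintype.card_option, Fintype.card_sum,
        Fintype.card_prod, Fintype.card_bool, Fintype.card_fun,
        Fintype.card_bool, Fintype.card_fin]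
      have e1 : ((Fintype.card (Ix n 2) : ℕ) : ℝ) = 2 * n * (2 : ℕ) := by
        rw [Fintype.card_prod, Fintype.card_prod, Fintype.card_fin, Fintype.card_fin,
          Fintype.card_bool]
        push_cast
        ring
      rw [e1]
      push_cast
      apply mul_le_mul_of_nonneg_right _ (by positivity)
      apply pow_le_pow_left₀ (by positivity)
      have h1 : (Fintype.card A : ℝ) ≤ N := by exact_mod_cast hA
      have h2 : (Fintype.card (Vr n 2 kk κ) : ℝ) ≤ N := h1
      rw [Fintype.card_sum] at h2
      push_cast at h2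
      linarith)
  refine ⟨(CNF q 2 π chg h).image (ren e), card_image_le.trans (hD1.trans
    (hcard.trans (le_of_eq (by norm_num)))), ?_, ?_, ?_⟩
  · intro cl hcl
    rw [mem_image] at hcl
    obtain ⟨c, hc, rfl⟩ := hcl
    refine card_image_le.trans ((hD2 c hc).trans ?_)
    rw [hκ]
    apply le_of_eq
    ring
  · intro z
    obtain ⟨c, hc, hcz⟩ := hD3 fun w => z (e w)
    exact ⟨ren e c, mem_image_of_mem _ hc, fun h => hcz ((holds_ren e c z).mp h)⟩
  · intro k a g s S ha hg hgk hs ref
    by_contra hcon
    push Not at hcon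
    obtain ⟨j, hj⟩ := ref.final
    have hs' : s ≤ s0 := by
      apply hs0
      refine hs.trans ?_
      apply Real.rpow_le_rpow_of_exponent_le hN1'
      linarith
    have hpow : (N : ℝ) ^ δ ≤ (N : ℝ) ^ x :=
      Real.rpow_le_rpow_of_exponent_le hN1' (by linarith)
    have hx1' : (1 : ℝ) ≤ (N : ℝ) ^ x := Real.one_le_rpow hN1' hx0.le
    have hf := hfan a ((p * (g + 1)) ^ k) 0 (ha.trans hpow) (hgk.trans hpow) (by
      push_cast
      linarith)
    have hlist : ∀ φ : Fm p N, ∃ l : List (Fm p N), φ ∈ ref.all →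
        l.length ≤ g ∧ ∀ μ, μ ∈ l ↔ μ ∈ φ.tops := by
      intro φ
      by_cases hφ : φ ∈ ref.all
      · obtain ⟨l, hl⟩ := exists_list φ g (ref.tops_le φ hφ)
        exact ⟨l, fun _ => hl⟩
      · exact ⟨[], fun h => absurd h hφ⟩
    choose tl htl using hlist
    obtain ⟨z, hz⟩ := hD4 a S ((1 + g * (p - 1)) ^ k * d)
      ({φ // φ ∈ ref.all} × (Fin g → Bool))
      (fun l => conv e (tab (tl l.1.1) l.2) true l.1.1)
      (fun j z => (ref.line j).eval (up e z))
      (fun l => (leavess_conv e _ _ _).trans ((ref.size_le _ l.1.2).trans hs'))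
      (by
        intro Z hZ j
        exact deg_all e g d ref.all ref.inputs_mem tl htl Z
          (fun φ hφ U => hZ (⟨φ, hφ⟩, U)) k (ref.line j) (ref.line_mem j)
          (ref.nest_le _ (ref.line_mem j)))
      (by
        refine le_trans (Nat.mul_le_mul_left 2 (Nat.add_le_add_right ?_ 4)) hf
        have hp1 : 1 + g * (p - 1) ≤ p * (g + 1) := by
          obtain ⟨p', rfl⟩ : ∃ p', p = p' + 1 := ⟨p - 1, by have := hp.one_lt; omega⟩
          rw [Nat.add_sub_cancel]
          nlinarith
        have hd : d ≤ 5 * d ^ 4 := by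
          rcases Nat.eq_zero_or_pos d with h | h
          · simp [h]
          · calc d = d ^ 1 := (pow_one d).symm
              _ ≤ d ^ 4 := Nat.pow_le_pow_right h (by norm_num)
              _ ≤ 5 * d ^ 4 := by omega
        calc (a + 1) * ((1 + g * (p - 1)) ^ k * d)
            ≤ (a + 1) ^ 2 * ((p * (g + 1)) ^ k * (5 * d ^ 4)) := by
              apply Nat.mul_le_mul
              · nlinarith
              · exact Nat.mul_le_mul (Nat.pow_le_pow_left hp1 k) hd
          _ = 1 * ((a + 1) ^ 2 * (0 + 1) ^ 2 * ((p * (g + 1)) ^ k * (5 * d ^ 4))) := by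
              ring
          _ ≤ 1 * ((a + 1) ^ 2 * (0 + 1) ^ 2 * ((p * (g + 1)) ^ k * (5 * d ^ 4) + 1)) :=
              Nat.mul_le_mul_left _ (Nat.mul_le_mul_left _ (Nat.le_succ _)))
      (by
        have h1 := hSr 1 ((ref.all.card : ℝ) * 2 ^ g) (by positivity) (by simpa using hx1') (by
          have h2 : (2 : ℝ) ^ g ≤ Real.exp ((N : ℝ) ^ δ) := by
            calc (2 : ℝ) ^ g ≤ (Real.exp 1) ^ g := by
                  apply pow_le_pow_left₀ (by norm_num)
                  have := Real.add_one_le_exp (1 : ℝ)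
                  linarith
              _ = Real.exp g := by rw [← Real.exp_nat_mul, mul_one]
              _ ≤ Real.exp ((N : ℝ) ^ δ) := Real.exp_le_exp.mpr hg
          calc (ref.all.card : ℝ) * 2 ^ g < Real.exp ((N : ℝ) ^ δ) * Real.exp ((N : ℝ) ^ δ) := by
                apply mul_lt_mul hcon h2 (by positivity) (Real.exp_pos _).le
            _ = Real.exp (2 * (N : ℝ) ^ δ) := by rw [← Real.exp_add]; ring_nf
            _ ≤ Real.exp ((N : ℝ) ^ x) := Real.exp_le_exp.mpr h2X)
        rw [Fintype.card_prod, Fintype.card_coe, Fintype.card_fun, Fintype.card_fin,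
          Fintype.card_bool]
        push_cast at h1 ⊢
        rw [mul_one] at h1
        exact h1)
      (fun j => by
        rcases ref.sound j with ⟨c, hc, hcj⟩ | ⟨P, hP1, hP2, hP3⟩
        · left
          rw [mem_image] at hc
          obtain ⟨c', hc', rfl⟩ := hc
          refine ⟨c', hc', fun z hz => ?_⟩
          apply hcj
          rw [holds_ren]
          have : (fun w => up e z (e w)) = z := by
            funext w
            exact up_apply e z w
          rw [this]
          exact hz
        · right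
          exact ⟨P, hP1, hP2, fun z hz => hP3 _ hz⟩) j
    rw [hj] at hz
    simp at hz

end Pool.Agent.Results.MP_7a4ff1_lc.QuadraticLayers
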