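import Pool.Agent.Helper600R2.Core

/-!
Exponential lower bound on the number of distinct formulas in refutations whose lines are Boolean
functions of boundedly many mod `p` sums of short formulas with mod `p` gates.
-/

set_option linter.unusedSectionVars false

namespace Pool.Agent.Results.MP_7a4ff1_lc.ShortSums

open Finset Pool.Agent.Helper600R2

/-- Formulas over `⊤, ⊥, ¬, ∧, ∨, →` and variables `x_a` (`a : Fin N`), with gates `lin a i` of
unbounded fan-in: `lin a i` says that `∑ v, a v * x_v = i` modulo `p`. -/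
inductive Fml (p N : ℕ) : Type
  | tru : Fml p N
  | fls : Fml p N
  | var (a : Fin N) : Fml p N
  | lin (a : Fin N → ZMod p) (i : ZMod p) : Fml p N
  | neg (φ : Fml p N) : Fml p N
  | and (φ ψ : Fml p N) : Fml p N
  | or (φ ψ : Fml p N) : Fml p N
  | imp (φ ψ : Fml p N) : Fml p N

/-- Truth value of a formula under an assignment. -/
def Fml.eval {p N : ℕ} (x : Fin N → Bool) : Fml p N → Bool
  | .tru => true
  | .fls => false
  | .var a => x a
  | .lin a i => decide ((∑ v, if x v = true then a v else 0) = i)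
  | .neg φ => !(φ.eval x)
  | .and φ ψ => φ.eval x && ψ.eval x
  | .or φ ψ => φ.eval x || ψ.eval x
  | .imp φ ψ => !(φ.eval x) || ψ.eval x

/-- Number of occurrences of variables outside the gates `lin`. -/
def Fml.leaves {p N : ℕ} : Fml p N → ℕ
  | .tru => 0
  | .fls => 0
  | .var _ => 1
  | .lin _ _ => 0
  | .neg φ => φ.leaves
  | .and φ ψ => φ.leaves + ψ.leaves
  | .or φ ψ => φ.leaves + ψ.leaves
  | .imp φ ψ => φ.leaves + ψ.leaves

/-- Number of occurrences of gates `lin`. -/
def Fml.lins {p N : ℕ} : Fml p N → ℕ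
  | .tru => 0
  | .fls => 0
  | .var _ => 0
  | .lin _ _ => 1
  | .neg φ => φ.lins
  | .and φ ψ => φ.lins + ψ.lins
  | .or φ ψ => φ.lins + ψ.lins
  | .imp φ ψ => φ.lins + ψ.lins

/-- A line: an arbitrary Boolean function `out` of `g` sums modulo `p`; the `j`-th sum is
`∑ φ ∈ sup j, coef j φ * φ`, where `sup j` is any finite set of formulas. -/
structure Line (p N g : ℕ) where
  sup : Fin g → Finset (Fml p N)
  coef : Fin g → Fml p N → ZMod p
  out : (Fin g → ZMod p) → Bool

/-- Truth value of a line. -/
def Line.eval {p N g : ℕ} (L : Line p N g) (x : Fin N → Bool) : Bool :=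
  L.out (fun j => ∑ φ ∈ L.sup j, if φ.eval x = true then L.coef j φ else 0)

/-- All formulas occurring in the sums of the lines. -/
noncomputable def allFml {p N g T : ℕ} (L : Fin T → Line p N g) : Finset (Fml p N) :=
  open Classical in univ.biUnion (fun i => univ.biUnion (L i).sup)

/-- The Boolean assignment `x` satisfies the equation `∑ i, a i * x_i = b` modulo `q`. -/
def EqHolds {q N : ℕ} (a : Fin N → ZMod q) (b : ZMod q) (x : Fin N → Bool) : Prop :=
  (∑ i, if x i = true then a i else 0) = b

/-- `L` is a refutation of the system of equations `∑ i, a v i * x_i = b v` modulo `q`: some line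
is identically false, and every line is implied by a single equation or by at most `k` earlier
lines. -/
def IsRefutation {q p N g n : ℕ} (a : Fin n → Fin N → ZMod q) (b : Fin n → ZMod q) (k : ℕ)
    {T : ℕ} (L : Fin T → Line p N g) : Prop :=
  (∃ i, ∀ x, (L i).eval x = false) ∧
  ∀ i, (∃ v, ∀ x, EqHolds (a v) (b v) x → (L i).eval x = true) ∨
    (∃ P : Finset (Fin T), P.card ≤ k ∧ (∀ j ∈ P, j < i) ∧
      ∀ x, (∀ j ∈ P, (L j).eval x = true) → (L i).eval x = true)

lemma sums_deg {V : Type} [Fintype V] {p : ℕ} [Fact p.Prime] {K : Type} [Field K] [CharP K p]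
    {g d : ℕ} (σ : Fin g → (V → Bool) → ZMod p)
    (hσ : ∀ j, (fun x => ZMod.castHom (dvd_refl p) K (σ j x)) ∈ J K d)
    (out : (Fin g → ZMod p) → Bool) :
    toK K (fun x => out (fun j => σ j x)) ∈ J K (g * ((p - 1) * d)) := by
  classical
  have hp : p.Prime := Fact.out
  let σK : Fin g → (V → Bool) → K := fun j x => ZMod.castHom (dvd_refl p) K (σ j x)
  let ind : ∀ b : Fin g → ZMod p, Fin g → (V → Bool) → K := fun b j =>
    1 - (σK j - fun _ => ZMod.castHom (dvd_refl p) K (b j)) ^ (p - 1)
  have hind : ∀ b j y, ind b j y = if σ j y = b j then 1 else 0 := by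
    intro b j y
    have h1 : ind b j y = ZMod.castHom (dvd_refl p) K (1 - (σ j y - b j) ^ (p - 1)) := by
      simp only [ind, σK, Pi.sub_apply, Pi.one_apply, Pi.pow_apply, map_sub, map_one, map_pow]
    rw [h1]
    by_cases h : σ j y = b j
    · rw [if_pos h, h, sub_self, zero_pow (by have := hp.two_le; omega), sub_zero, map_one]
    · rw [if_neg h, ZMod.pow_card_sub_one_eq_one (sub_ne_zero.mpr h), sub_self, map_zero]
  have hindJ : ∀ b j, ind b j ∈ J K ((p - 1) * d) := by
    intro b j
    refine Submodule.sub_mem _ (J_one _) ?_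
    exact J_pow (Submodule.sub_mem _ (hσ j) (J_const _ _)) _
  have heq : toK K (fun x => out (fun j => σ j x)) =
      ∑ b : Fin g → ZMod p, (if out b = true then (1 : K) else 0) • ∏ j, ind b j := by
    funext y
    rw [Finset.sum_apply, Finset.sum_eq_single (fun j => σ j y)]
    · rw [Pi.smul_apply, Finset.prod_apply, Finset.prod_eq_one, smul_eq_mul, mul_one]
      · rfl
      · intro j _
        exact (hind (fun j => σ j y) j y).trans (if_pos rfl)
    · intro b _ hb
      have : ∃ j, σ j y ≠ b j := by
        by_contra hcon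
        push Not at hcon
        exact hb (funext fun j => (hcon j).symm)
      obtain ⟨j, hj⟩ := this
      rw [Pi.smul_apply, Finset.prod_apply, Finset.prod_eq_zero (mem_univ j), smul_zero]
      exact (hind b j y).trans (if_neg hj)
    · intro h; exact absurd (mem_univ _) h
  rw [heq]
  refine Submodule.sum_mem _ (fun b _ => Submodule.smul_mem _ _ ?_)
  have h1 := J_prod (K := K) (univ : Finset (Fin g)) (ind b) (fun _ => (p - 1) * d)
    (fun j _ => hindJ b j)
  simpa using h1

lemma Fml.comp {p N : ℕ} [Fact p.Prime] {V : Type} [Fintype V] [DecidableEq V] (K : Type)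
    [Field K] [CharP K p] (g : Fin N → V) (φ : Fml p N) :
    ∃ (L : V → ℕ) (S : ℕ), Comp K L S (fun x : V → Bool => φ.eval (fun a => x (g a))) ∧
      ∑ v, L v = φ.leaves ∧ S = (p - 1) * φ.lins := by
  have hp : p.Prime := Fact.out
  induction φ with
  | tru => exact ⟨0, 0, Comp.const true, by simp [Fml.leaves], by simp [Fml.lins]⟩
  | fls => exact ⟨0, 0, Comp.const false, by simp [Fml.leaves], by simp [Fml.lins]⟩
  | var a =>
    exact ⟨Pi.single (g a) 1, 0, Comp.var (g a), by simp [Fml.leaves], by simp [Fml.lins]⟩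
  | lin a i =>
    refine ⟨0, p - 1, Comp.sp (p - 1) _ (by have := hp.two_le; omega) ?_, by simp [Fml.leaves],
      by simp [Fml.lins]⟩
    have h1 := sums_deg (K := K) (d := 1) (g := 1)
      (fun _ x => ∑ v, if x (g v) = true then a v else 0) (fun _ => by
        have h2 : (fun x : V → Bool => ZMod.castHom (dvd_refl p) K
            (∑ v, if x (g v) = true then a v else 0)) =
            ∑ v : Fin N, (fun x : V → Bool => if x (g v) = true then
              ZMod.castHom (dvd_refl p) K (a v) else 0) := by
          funext x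
          rw [map_sum, Finset.sum_apply]
          refine Finset.sum_congr rfl (fun v _ => ?_)
          split_ifs <;> simp
        rw [h2]
        refine Submodule.sum_mem _ (fun v _ => ?_)
        refine junta_mem {g v} (by simp) ?_
        intro x y hxy
        have := hxy (g v) (by simp)
        simp only [this]) (fun s => decide (s 0 = i))
    rw [one_mul, mul_one] at h1
    exact h1
  | neg φ ih =>
    obtain ⟨L, S, h, hL, hS⟩ := ih
    exact ⟨L, S, Comp.neg h, hL, hS⟩
  | and φ ψ ih ih' =>
    obtain ⟨L, S, h, hL, hS⟩ := ih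
    obtain ⟨L', S', h', hL', hS'⟩ := ih'
    exact ⟨L + L', S + S', Comp.and h h',
      by simp [Fml.leaves, Finset.sum_add_distrib, hL, hL'],
      by simp [Fml.lins, hS, hS', mul_add]⟩
  | or φ ψ ih ih' =>
    obtain ⟨L, S, h, hL, hS⟩ := ih
    obtain ⟨L', S', h', hL', hS'⟩ := ih'
    refine ⟨L + L', S + S', ?_, by simp [Fml.leaves, Finset.sum_add_distrib, hL, hL'],
      by simp [Fml.lins, hS, hS', mul_add]⟩
    have h1 := Comp.neg (Comp.and (Comp.neg h) (Comp.neg h'))
    have h2 : (fun x : V → Bool => (Fml.or φ ψ).eval (fun a => x (g a))) =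
        fun x => !((!(φ.eval (fun a => x (g a)))) && (!(ψ.eval (fun a => x (g a))))) := by
      funext x
      simp [Fml.eval]
    rw [h2]
    exact h1
  | imp φ ψ ih ih' =>
    obtain ⟨L, S, h, hL, hS⟩ := ih
    obtain ⟨L', S', h', hL', hS'⟩ := ih'
    refine ⟨L + L', S + S', ?_, by simp [Fml.leaves, Finset.sum_add_distrib, hL, hL'],
      by simp [Fml.lins, hS, hS', mul_add]⟩
    have h1 := Comp.neg (Comp.and h (Comp.neg h'))
    have h2 : (fun x : V → Bool => (Fml.imp φ ψ).eval (fun a => x (g a))) =
        fun x => !((φ.eval (fun a => x (g a))) && (!(ψ.eval (fun a => x (g a))))) := by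
      funext x
      simp [Fml.eval]
    rw [h2]
    exact h1

section sys

variable {n : ℕ} (π : Equiv.Perm (Fin n)) {q : ℕ} [NeZero q] {r m : ℕ}

lemma flow_sum (z : Fin n × Bool → ZMod q) : ∑ v, flow (ghd π) gtl v z = 0 := by
  simp only [flow]
  rw [Finset.sum_comm]
  apply Finset.sum_eq_zero
  intro e _
  rw [← Finset.sum_mul]
  have : ∑ v, dd (ghd π) gtl (Pi.single v (1 : ZMod q)) e = 0 := by
    simp only [dd, Finset.sum_sub_distrib, Pi.single_apply]
    simp
  rw [this, zero_mul]

/-- the coefficients of the equation at `v` -/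
def coefAt (v : Fin n) (a : (Fin n × Bool) × Fin r × Fin m) : ZMod q :=
  dd (ghd π) gtl (Pi.single v (1 : ZMod q)) a.1

lemma coefAt_card (v : Fin n) :
    (univ.filter (fun a : (Fin n × Bool) × Fin r × Fin m => coefAt (q := q) π v a ≠ 0)).card ≤
      4 * (r * m) := by
  have h1 : univ.filter (fun a : (Fin n × Bool) × Fin r × Fin m => coefAt (q := q) π v a ≠ 0) ⊆
      (nsupp (q := q) (dd (ghd π) gtl (Pi.single v (1 : ZMod q)))) ×ˢ univ := by
    intro a ha
    simp only [coefAt, mem_filter, mem_univ, true_and] at ha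
    simp only [nsupp, mem_product, mem_filter, mem_univ, true_and, and_true]
    exact ha
  refine (card_le_card h1).trans ?_
  rw [card_product]
  have h2 : (nsupp (q := q) (dd (ghd π) gtl (Pi.single v (1 : ZMod q)))).card ≤ 4 :=
    graph_deg (q := q) π v 1
  have h3 : (univ : Finset (Fin r × Fin m)).card = r * m := by simp
  rw [h3]
  exact Nat.mul_le_mul_right _ h2

lemma flow_eq (v : Fin n) (x : (Fin n × Bool) × Fin r × Fin m → Bool) :
    flow (ghd π) gtl v (zsum q x) = ∑ a, if x a = true then coefAt π v a else 0 := by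
  rw [Fintype.sum_prod_type, flow]
  refine Finset.sum_congr rfl (fun e _ => ?_)
  rw [Fintype.sum_prod_type, zsum, Finset.mul_sum]
  refine Finset.sum_congr rfl (fun t _ => ?_)
  rw [Finset.mul_sum]
  refine Finset.sum_congr rfl (fun j _ => ?_)
  simp only [coefAt]
  split_ifs <;> simp

end sys

/-- For every prime `p` there is a prime `q ≠ p`, `q ≤ 3`, such that for all `k`, `g` and
`γ < 1 / 2` the following holds for some `c > 0` and all `n ≥ n₀`, `m ≥ 1`. There is an
unsatisfiable system of `n` linear equations modulo `q` in `N = 2 (q - 1) n m` Boolean variables,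
each equation having at most `8 m` variables, such that: every sound refutation in which each line
is a Boolean function of `g` sums modulo `p` of formulas with at most `c m ^ γ N` occurrences of
variables and at most `c n` gates counting modulo `p` contains at least `2 ^ (c n)` distinct
formulas. -/
theorem result (p : ℕ) (hp : p.Prime) (k g : ℕ) (γ : ℝ) (hγ : γ < 1 / 2) :
    ∃ q : ℕ, q.Prime ∧ q ≠ p ∧ q ≤ 3 ∧ ∃ c : ℝ, 0 < c ∧ ∃ n₀ : ℕ, ∀ n m : ℕ, n₀ ≤ n → 1 ≤ m →
      ∃ (a : Fin n → Fin (2 * (q - 1) * n * m) → ZMod q) (b : Fin n → ZMod q),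
        (∀ v, (univ.filter (fun i => a v i ≠ 0)).card ≤ 8 * m) ∧
        (¬ ∃ x, ∀ v, EqHolds (a v) (b v) x) ∧
        ∀ (T : ℕ) (L : Fin T → Line p (2 * (q - 1) * n * m) g), IsRefutation a b k L →
          (∀ φ ∈ allFml L, (φ.leaves : ℝ) ≤ c * (m : ℝ) ^ γ * (2 * (q - 1) * n * m : ℕ) ∧
            (φ.lins : ℝ) ≤ c * n) →
          (2 : ℝ) ^ (c * n) ≤ (allFml L).card := by
  classical
  have : Fact p.Prime := ⟨hp⟩
  obtain ⟨q, hq, hqp, hq3⟩ : ∃ q : ℕ, q.Prime ∧ q ≠ p ∧ q ≤ 3 := by
    by_cases h : p = 2
    · exact ⟨3, by norm_num, by omega, le_rfl⟩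
    · exact ⟨2, by norm_num, fun h' => h h'.symm, by omega⟩
  have : Fact q.Prime := ⟨hq⟩
  have hq2 := hq.two_le
  obtain ⟨γ', hγ'0, hγγ', hγ'⟩ : ∃ γ' : ℝ, 0 ≤ γ' ∧ γ ≤ γ' ∧ γ' < 1 / 2 :=
    ⟨max γ 0, le_max_right _ _, le_max_left _ _, max_lt hγ (by norm_num)⟩
  obtain ⟨c, hc0, n₀, hcore⟩ := core ((k + 1) * (g * (p - 1) + 1)) (q - 1)
    (Nat.mul_pos (Nat.succ_pos _) (Nat.succ_pos _)) (by omega) (1 + γ')
    (by linarith) (by linarith)
  have hp0 : (2 : ℝ) ≤ p := by exact_mod_cast hp.two_le
  refine ⟨q, hq, hqp, hq3, c / (4 * p), by positivity, max n₀ 25, ?_⟩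
  intro n m hn hm
  have hn0 : n₀ ≤ n := (le_max_left _ _).trans hn
  have hn25 : 25 ≤ n := (le_max_right _ _).trans hn
  obtain ⟨π, hπ⟩ := exists_expander hn25
  have hcard : Fintype.card ((Fin n × Bool) × Fin (q - 1) × Fin m) = 2 * (q - 1) * n * m := by
    simp only [Fintype.card_prod, Fintype.card_fin, Fintype.card_bool]; ring
  let e : (Fin n × Bool) × Fin (q - 1) × Fin m ≃ Fin (2 * (q - 1) * n * m) :=
    Fintype.equivFinOfCardEq hcard
  let b : Fin n → ZMod q := fun v => if v.val = 0 then 1 else 0
  let a : Fin n → Fin (2 * (q - 1) * n * m) → ZMod q := fun v i => coefAt π v (e.symm i)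
  have hEq : ∀ v x, EqHolds (a v) (b v) x ↔ LC π b v (fun i => x (e i)) := by
    intro v x
    simp only [EqHolds, LC, flow_eq, a]
    rw [← Equiv.sum_comp e]
    simp only [Equiv.symm_apply_apply]
  refine ⟨a, b, ?_, ?_, ?_⟩
  · intro v
    have h1 : (univ.filter (fun i => a v i ≠ 0)).card =
        (univ.filter (fun i : (Fin n × Bool) × Fin (q - 1) × Fin m =>
          coefAt (q := q) π v i ≠ 0)).card := by
      apply Finset.card_bij (fun i _ => e.symm i)
      · intro i hi
        simpa [a] using hi
      · intro i _ j _ h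
        exact e.symm.injective h
      · intro i hi
        exact ⟨e i, by simpa [a] using hi, by simp⟩
    rw [h1]
    refine (coefAt_card π v).trans ?_
    have : (q - 1) * m ≤ 2 * m := Nat.mul_le_mul_right m (by omega)
    omega
  · rintro ⟨x, hx⟩
    have h1 : ∀ v, flow (ghd π) gtl v (zsum q (fun i => x (e i))) = b v := fun v =>
      (hEq v x).mp (hx v)
    have h2 := flow_sum π (zsum q (fun i => x (e i)))
    simp only [h1, b] at h2
    have h3 : ∑ v : Fin n, (if v.val = 0 then (1 : ZMod q) else 0) = 1 := by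
      rw [Finset.sum_eq_single (⟨0, by omega⟩ : Fin n)]
      · simp
      · intro v _ hv
        rw [if_neg]
        intro h
        exact hv (Fin.ext h)
      · intro h; exact absurd (mem_univ _) h
    rw [h3] at h2
    exact one_ne_zero h2
  · intro T L href hsize
    by_contra hT
    push Not at hT
    have hqK : (q : AlgebraicClosure (ZMod p)) ≠ 0 := by
      intro h
      rw [CharP.cast_eq_zero_iff (AlgebraicClosure (ZMod p)) p q] at h
      rw [Nat.prime_dvd_prime_iff_eq hp hq] at h
      exact hqp h.symm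
    have : NeZero (q : ZMod p) := ⟨by
      intro h
      rw [CharP.cast_eq_zero_iff (ZMod p) p q] at h
      rw [Nat.prime_dvd_prime_iff_eq hp hq] at h
      exact hqp h.symm⟩
    obtain ⟨ζ, hζ⟩ := HasEnoughRootsOfUnity.exists_primitiveRoot (AlgebraicClosure (ZMod p)) q
    have hprim := AddChar.zmodChar_primitive_of_primitive_root q hζ
    let ee : Fin (allFml L).card ≃ allFml L := (allFml L).equivFin.symm
    choose Lf Sf hL1 hL2 hL3 using fun φ : Fml p (2 * (q - 1) * n * m) =>
      Fml.comp (V := (Fin n × Bool) × Fin (q - 1) × Fin m) (AlgebraicClosure (ZMod p))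
        (fun i => e.symm i) φ
    have hmr : (1 : ℝ) ≤ m := by exact_mod_cast hm
    have hnr : (0 : ℝ) ≤ n := Nat.cast_nonneg n
    obtain ⟨d, hd, ρ, hρ, hJ⟩ := hcore n m hn0 hm (AlgebraicClosure (ZMod p)) (allFml L).card
      (fun i x => (ee i).1.eval (fun a => x (e.symm a))) (fun i => Lf (ee i).1)
      (fun i => Sf (ee i).1) (fun i => hL1 _) (by
        intro i
        rw [hL2]
        refine ((hsize _ (ee i).2).1).trans ?_
        have h1 : (m : ℝ) ^ γ ≤ (m : ℝ) ^ γ' := Real.rpow_le_rpow_of_exponent_le hmr hγγ'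
        have h2 : (m : ℝ) ^ (1 + γ') = m * (m : ℝ) ^ γ' := by
          rw [Real.rpow_add (by linarith), Real.rpow_one]
        rw [h2]
        have h3 : ((2 * (q - 1) * n * m : ℕ) : ℝ) ≤ 4 * n * m := by
          have h4 : 2 * (q - 1) * n * m ≤ 4 * n * m := by
            apply Nat.mul_le_mul_right
            apply Nat.mul_le_mul_right
            omega
          exact_mod_cast h4
        have hmγ : 0 < (m : ℝ) ^ γ := Real.rpow_pos_of_pos (by linarith) γ
        have hmγ' : 0 < (m : ℝ) ^ γ' := Real.rpow_pos_of_pos (by linarith) γ'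
        calc c / (4 * p) * (m : ℝ) ^ γ * ((2 * (q - 1) * n * m : ℕ) : ℝ)
            ≤ c / (4 * 1) * (m : ℝ) ^ γ' * (4 * n * m) := by
              apply mul_le_mul _ h3 (Nat.cast_nonneg _) (by positivity)
              apply mul_le_mul _ h1 hmγ.le (by positivity)
              apply div_le_div_of_nonneg_left hc0.le (by norm_num)
              linarith
          _ = c * n * (m * (m : ℝ) ^ γ') := by ring)
      (by
        intro i
        rw [hL3]
        have h1 := (hsize _ (ee i).2).2
        push_cast
        have h2 : ((p - 1 : ℕ) : ℝ) ≤ p := by exact_mod_cast Nat.sub_le p 1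
        calc ((p - 1 : ℕ) : ℝ) * ((ee i).1.lins : ℝ) ≤ p * (c / (4 * p) * n) :=
              mul_le_mul h2 h1 (Nat.cast_nonneg _) (by linarith)
          _ = c * n / 4 := by field_simp
          _ ≤ c * n := by nlinarith [mul_nonneg hc0.le hnr])
      (by
        refine hT.trans_le ?_
        apply Real.rpow_le_rpow_of_exponent_le (by norm_num)
        apply mul_le_mul_of_nonneg_right _ hnr
        rw [div_le_iff₀ (by positivity)]
        nlinarith)
    -- degree of the lines
    have hdeg : ∀ i, toK (AlgebraicClosure (ZMod p)) (fun y =>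
        (L i).eval (fun a => merge ρ y (e.symm a))) ∈
          J (AlgebraicClosure (ZMod p)) (g * ((p - 1) * d)) := by
      intro i
      refine sums_deg (p := p) (fun j y => ∑ φ ∈ (L i).sup j,
        if φ.eval (fun a => merge ρ y (e.symm a)) = true then (L i).coef j φ else 0) ?_ (L i).out
      intro j
      have h1 : (fun y => ZMod.castHom (dvd_refl p) (AlgebraicClosure (ZMod p))
          (∑ φ ∈ (L i).sup j,
            if φ.eval (fun a => merge ρ y (e.symm a)) = true then (L i).coef j φ else 0)) =
          ∑ φ ∈ (L i).sup j, (ZMod.castHom (dvd_refl p) (AlgebraicClosure (ZMod p))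
            ((L i).coef j φ)) • toK (AlgebraicClosure (ZMod p))
              (fun y => φ.eval (fun a => merge ρ y (e.symm a))) := by
        funext y
        rw [map_sum, Finset.sum_apply]
        refine Finset.sum_congr rfl (fun φ _ => ?_)
        simp only [Pi.smul_apply, toK, smul_eq_mul]
        split_ifs <;> simp
      rw [h1]
      refine Submodule.sum_mem _ (fun φ hφ => Submodule.smul_mem _ _ ?_)
      have hφ' : φ ∈ allFml L := by
        simp only [allFml, mem_biUnion, mem_univ, true_and]
        exact ⟨i, j, hφ⟩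
      have h2 := hJ (ee.symm ⟨φ, hφ'⟩)
      simp only [Equiv.apply_symm_apply] at h2
      exact h2
    obtain ⟨⟨i₀, hi₀⟩, hsound⟩ := href
    have hr : q - 1 + 1 = q := by omega
    obtain ⟨x, hx⟩ := lifted_no_low_degree π _ hprim hqK hr (by omega) hπ b
      (g * ((p - 1) * d)) k (by
        have h1 : (k + 1) * (g * ((p - 1) * d)) ≤ (k + 1) * (g * (p - 1) + 1) * d := by
          rw [mul_assoc]
          apply Nat.mul_le_mul_left
          rw [add_mul, mul_assoc]
          exact Nat.le_add_right _ _
        omega)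
      (fun i (x : (Fin n × Bool) × Fin (q - 1) × Fin m → Bool) =>
        (L i).eval (fun a => x (e.symm a))) (by
        intro i
        rcases hsound i with ⟨v, hv⟩ | ⟨P, hP1, hP2, hP3⟩
        · left
          refine ⟨v, fun x hx => hv _ ?_⟩
          rw [hEq]
          simpa using hx
        · right
          exact ⟨P, hP1, hP2, fun x hx => hP3 _ hx⟩) ρ hρ hdeg i₀
    have h1 := hi₀ (fun a => x (e.symm a))
    have h2 : (L i₀).eval (fun a => x (e.symm a)) = true := hx
    rw [h1] at h2
    exact Bool.false_ne_true h2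

end Pool.Agent.Results.MP_7a4ff1_lc.ShortSums
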