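import Pool.Agent.H694R2.SymCount

set_option autoImplicit false

/-!
# MP_7a4ff1_lc: symmetric refutations of `Count_q` with `MOD_p` gates are exponentially long

Definitions (beginning of `Pool/Agent/H694R2/SymMod.lean`):

* `Circuit p V 𝒢`: acyclic circuits over the variables `V` with gate set `𝒢`: negation gates,
  disjunction gates and `MOD_(p,a)` gates of unbounded fan-in, any depth, with sharing;
  `mult g c` is the number of times the node `c` is an input of `g`;
* `C.Symmetric A`: the circuit is invariant under the permutations of `A`, which act on the
  variables and on the gates;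
* `Step`: one inference of the sequent calculus LK (unbounded `∨`; clauses used as rules) with the
  rules for `MOD_p` gates: exactly one value, empty sum, adding one input, replacing simultaneously
  all inputs by equivalent ones (unboundedly many premises), and sums of sums;
* `Der C 𝒜 b Γ`: the sequent `Γ` has a (dag-like) derivation from the clauses `𝒜` by sequents of
  at most `b` nodes of `C`.

`countClauses A q` (`Pool/Agent/H694R2/SymCount.lean`) are the clauses of `Count_q` on the set `A`:
the variables are the `q`-element subsets (blocks) of `A`, every point lies in a block, distinct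
blocks are disjoint.
-/

namespace Pool.Agent.Results.MP_7a4ff1_lc.SymmetricModP

open Equiv Pool.Agent.H694R2.SymMod Pool.Agent.H694R2.SymCount

/-- Let `p` be a prime and `q` coprime to `p`. If a circuit with `MOD_p` gates that is invariant
under the permutations of the `n`-element set `A` carries a refutation of `Count_q` on `A` with
sequents of at most `b` nodes, then it has at least `((n choose k) / 4)^(1/3)` gates whenever
`k ≥ 2q` and `(2pq + b) k ≤ n`. -/
theorem result {A 𝒢 : Type} [Fintype A] [DecidableEq A] [Fintype 𝒢] [DecidableEq 𝒢]
    [MulAction (Perm A) 𝒢] (p q b k : ℕ) [Fact p.Prime] (hpq : Nat.Coprime p q) (hq : 1 ≤ q)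
    (hb : 2 ≤ b) (hk : 2 * q ≤ k) (hn : (2 * p * q + b) * k ≤ Fintype.card A)
    (C : Circuit p (Set.powersetCard A q) 𝒢) (hC : C.Symmetric A)
    (hD : Der C (countClauses A q) b ∅) :
    (Fintype.card A).choose k ≤ 4 * (Fintype.card 𝒢) ^ 3 :=
  count_lower_bound hpq hq hb (by omega) hk hn C hC hD

end Pool.Agent.Results.MP_7a4ff1_lc.SymmetricModP
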